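import Pool.Agent.H.MP_d84959_lc.A

namespace Pool.Agent.H.MP_3f42a7_lc

open Pool.Agent.H.MP_d84959_lc List.Mem

abbrev Acc (φ : Fm) : Prop := HasTree Par True φ

variable {a b c d : Fm}

lemma A_refl : Acc (a.imp a) :=
  .cc (head _) (.crash (tail _ (head _)) (head _) (by simp [Par]))

lemma A_trans (h : Acc (a.imp b)) (k : Acc (b.imp c)) : Acc (a.imp c) :=
  .cc (head _) (.recu trivial (tail _ (head _)) h (.recu trivial (head _) k
    (.crash (head _) (tail _ (tail _ (head _))) (by simp [Par]))))

lemma A_andl : Acc ((a.and b).imp a) :=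
  .cc (head _) (.conj (tail _ (head _))
    (.crash (tail _ (head _)) (tail _ (tail _ (head _))) (by simp [Par])))

lemma A_andr : Acc ((a.and b).imp b) :=
  .cc (head _) (.conj (tail _ (head _)) (.crash (head _) (tail _ (tail _ (head _))) (by simp [Par])))

lemma A_and (h : Acc (c.imp a)) (k : Acc (c.imp b)) : Acc (c.imp (a.and b)) :=
  .cc (head _) (.nand (head _)
    (.recu trivial (tail _ (tail _ (head _))) h (.crash (head _) (tail _ (head _)) (by simp [Par])))
    (.recu trivial (tail _ (tail _ (head _))) k (.crash (head _) (tail _ (head _)) (by simp [Par]))))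

lemma A_orl : Acc (a.imp (a.or b)) :=
  .cc (head _) (.nor (head _)
    (.crash (tail _ (tail _ (tail _ (head _)))) (tail _ (head _)) (by simp [Par])))

lemma A_orr : Acc (b.imp (a.or b)) :=
  .cc (head _) (.nor (head _) (.crash (tail _ (tail _ (tail _ (head _)))) (head _) (by simp [Par])))

lemma A_or (h : Acc (a.imp c)) (k : Acc (b.imp c)) : Acc ((a.or b).imp c) :=
  .cc (head _) (.disj (tail _ (head _))
    (.recu trivial (head _) h (.crash (head _) (tail _ (tail _ (head _))) (by simp [Par])))
    (.recu trivial (head _) k (.crash (head _) (tail _ (tail _ (head _))) (by simp [Par]))))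

lemma A_contra (h : Acc (a.imp b)) : Acc (b.neg.imp a.neg) :=
  .cc (head _) (.dn (head _) (.recu trivial (head _) h
    (.crash (head _) (tail _ (tail _ (tail _ (head _)))) (by simp [Par]))))

lemma A_dn : Acc (a.neg.neg.imp a) :=
  .cc (head _) (.crash (head _) (tail _ (head _)) (by simp [Par]))

lemma A_imp (h : Acc (c.imp a)) (k : Acc (b.imp d)) : Acc ((a.imp b).imp (c.imp d)) :=
  .cc (head _) (.cc (head _) (.recu trivial (tail _ (head _)) h
    (.mp (head _) (tail _ (tail _ (tail _ (tail _ (head _))))) (.recu trivial (head _) k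
      (.crash (head _) (tail _ (tail _ (tail _ (head _)))) (by simp [Par]))))))

lemma A_dm : Acc ((a.and b).neg.imp (a.neg.or b.neg)) :=
  .cc (head _) (.nor (head _) (.nand (tail _ (tail _ (tail _ (head _))))
    (.crash (head _) (tail _ (tail _ (head _))) (by simp [Par]))
    (.crash (head _) (tail _ (head _)) (by simp [Par]))))

inductive V : Type
  | top
  | bot
  | fm (a : Fm)

open V

def Le : V → V → Prop
  | bot, _ => True
  | top, top => True
  | top, bot => False
  | top, fm _ => False
  | fm _, top => True
  | fm _, bot => False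
  | fm a, fm b => Acc (a.imp b)

def vneg : V → V
  | top => bot
  | bot => top
  | fm a => fm a.neg

def vand : V → V → V
  | bot, _ => bot
  | top, y => y
  | fm _, bot => bot
  | fm a, top => fm a
  | fm a, fm b => fm (a.and b)

def vor : V → V → V
  | top, _ => top
  | bot, y => y
  | fm _, top => top
  | fm a, bot => fm a
  | fm a, fm b => fm (a.or b)

def vimp : V → V → V
  | bot, _ => top
  | top, top => top
  | top, bot => bot
  | top, fm _ => bot
  | fm _, top => top
  | fm _, bot => bot
  | fm a, fm b => fm (a.imp b)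

variable {x y z u : V}

lemma Le.refl (x : V) : Le x x := by cases x <;> simp [Le, A_refl]

lemma Le.trans (h : Le x y) (k : Le y z) : Le x z := by
  cases x <;> cases y <;> cases z <;> simp_all only [Le]
  exact A_trans h k

lemma le_andl : Le (vand x y) x := by cases x <;> cases y <;> simp [Le, vand, A_refl, A_andl]
lemma le_andr : Le (vand x y) y := by cases x <;> cases y <;> simp [Le, vand, A_refl, A_andr]
lemma le_orl : Le x (vor x y) := by cases x <;> cases y <;> simp [Le, vor, A_refl, A_orl]
lemma le_orr : Le y (vor x y) := by cases x <;> cases y <;> simp [Le, vor, A_refl, A_orr]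

lemma le_and (h : Le z x) (k : Le z y) : Le z (vand x y) := by
  cases x <;> cases y <;> cases z <;> simp_all only [Le, vand]
  exact A_and h k

lemma or_le (h : Le x z) (k : Le y z) : Le (vor x y) z := by
  cases x <;> cases y <;> cases z <;> simp_all only [Le, vor]
  exact A_or h k

lemma le_neg (h : Le x y) : Le (vneg y) (vneg x) := by
  cases x <;> cases y <;> simp_all only [Le, vneg]
  exact A_contra h

lemma le_dn : Le (vneg (vneg x)) x := by cases x <;> simp [Le, vneg, A_dn]

lemma le_imp (h : Le z x) (k : Le y u) : Le (vimp x y) (vimp z u) := by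
  cases x <;> cases y <;> cases z <;> cases u <;> simp_all only [Le, vimp]
  exact A_imp h k

lemma le_dm : Le (vneg (vand x y)) (vor (vneg x) (vneg y)) := by
  cases x <;> cases y <;> simp [Le, vand, vor, vneg, A_refl, A_dm]

/-- the two-level translation -/
def t (Q : Finset ℕ) : Fm → Bool → V
  | .var n, l => if n ∈ Q then (if l then bot else top) else fm (.var n)
  | .neg a, l => vneg (t Q a (!l))
  | .and a b, l => vand (t Q a l) (t Q b l)
  | .or a b, l => vor (t Q a l) (t Q b l)
  | .imp a b, l => vand (vimp (t Q a false) (t Q b l)) (vimp (t Q a true) (t Q b true))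

variable {Q : Finset ℕ}

lemma her (a : Fm) : Le (t Q a true) (t Q a false) := by
  induction a with
  | var n => by_cases h : n ∈ Q <;> simp [t, h, Le, A_refl]
  | neg a ih => exact le_neg ih
  | and a b ia ib => exact le_and (le_andl.trans ia) (le_andr.trans ib)
  | or a b ia ib => exact or_le (ia.trans le_orl) (ib.trans le_orr)
  | imp a b ia ib => exact le_and (le_andl.trans (le_imp (.refl _) ib)) le_andr

lemma pure (a : Fm) (h : Disjoint (letters a) Q) :
    ∀ l, Le (t Q a l) (fm a) ∧ Le (fm a) (t Q a l) := by
  induction a with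
  | var n => intro l; simp [t, show n ∉ Q by simpa [letters] using h, Le, A_refl]
  | neg a ih => exact fun l => ⟨le_neg (x := fm a) (ih h _).2, le_neg (y := fm a) (ih h _).1⟩
  | and a b ia ib =>
    rw [letters, Finset.disjoint_union_left] at h
    exact fun l => ⟨le_and (x := fm a) (y := fm b) (le_andl.trans (ia h.1 l).1)
      (le_andr.trans (ib h.2 l).1), le_and ((le_andl (x := fm a) (y := fm b)).trans (ia h.1 l).2)
      ((le_andr (x := fm a) (y := fm b)).trans (ib h.2 l).2)⟩
  | or a b ia ib =>
    rw [letters, Finset.disjoint_union_left] at h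
    exact fun l => ⟨or_le ((ia h.1 l).1.trans (le_orl (y := fm b)))
      ((ib h.2 l).1.trans (le_orr (x := fm a))), or_le (x := fm a) (y := fm b)
      ((ia h.1 l).2.trans le_orl) ((ib h.2 l).2.trans le_orr)⟩
  | imp a b ia ib =>
    rw [letters, Finset.disjoint_union_left] at h
    exact fun l => ⟨le_andr.trans (le_imp (z := fm a) (u := fm b) (ia h.1 _).2 (ib h.2 _).1),
      le_and (le_imp (x := fm a) (y := fm b) (ia h.1 _).1 (ib h.2 _).2)
        (le_imp (x := fm a) (y := fm b) (ia h.1 _).1 (ib h.2 _).2)⟩

lemma mid (a : Fm) (h : letters a ⊆ Q) : t Q a false = top ∧ t Q a true = bot := by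
  induction a with
  | var n => simp [t, show n ∈ Q by simpa [letters] using h]
  | neg a ih => simp [t, ih h, vneg]
  | and a b ia ib => rw [letters, Finset.union_subset_iff] at h; simp [t, ia h.1, ib h.2, vand]
  | or a b ia ib => rw [letters, Finset.union_subset_iff] at h; simp [t, ia h.1, ib h.2, vor]
  | imp a b ia ib => rw [letters, Finset.union_subset_iff] at h; simp [t, ia h.1, ib h.2, vand, vimp]

end Pool.Agent.H.MP_3f42a7_lc
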