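import Pool.Agent.H.MP_3f42a7_lc.A

namespace Pool.Agent.H.MP_3f42a7_lc

open Pool.Agent.H.MP_d84959_lc V

abbrev Cell := V × Option Node
abbrev St := List Node × Finset ℕ

def Ok (s : St) (c : Cell) : Prop := c.1 ≠ bot ∧ ∀ q, c.2 = some q → q ∈ s.1 ∧ c.1 = fm q.1

def nd (S : Set Cell) : Set Node := {q | ∃ c ∈ S, c.2 = some q}

def Gd (s : St) (S : Set Cell) : Prop :=
  (∃ c ∈ S, c.1 = top) ∨ ((∀ c ∈ S, c.2 ≠ none) ∧ Cl s.1 s.2 (nd S))

def Ext (s s' : St) : Prop :=
  WF s'.1 s'.2 ∧ (∀ p ∈ s.1, p ∈ s'.1) ∧ ∀ W, Cl s.1 s.2 W → Cl s'.1 s'.2 W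

abbrev Cs (s : St) : Prop := Closes Par True s.1 s.2

variable {s s' s'' : St} {c d : Cell} {S : Set Cell} {x y z : V} {a b : Fm} {p q : Node}

lemma Ext.refl (h : WF s.1 s.2) : Ext s s := ⟨h, fun _ h => h, fun _ h => h⟩

lemma Ext.trans (h : Ext s s') (k : Ext s' s'') : Ext s s'' :=
  ⟨k.1, fun p hp => k.2.1 p (h.2.1 p hp), fun W hW => k.2.2 W (h.2.2 W hW)⟩

lemma Ok.ext (h : Ok s c) (k : Ext s s') : Ok s' c :=
  ⟨h.1, fun q hq => ⟨k.2.1 q (h.2 q hq).1, (h.2 q hq).2⟩⟩

lemma Gd.ext (h : Gd s S) (k : Ext s s') : Gd s' S := h.imp_right fun h => ⟨h.1, k.2.2 _ h.2⟩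

lemma nd_insert : nd (insert (x, some q) S) = insert q (nd S) := by
  ext r; simp [nd, eq_comm]

lemma Gd.top {o} : Gd s (insert (top, o) S) := .inl ⟨_, .inl rfl, rfl⟩

lemma Gd.ghost (h : Gd s (insert (fm a, none) S)) {T : Set Cell} (hT : S ⊆ T) : Gd s T := by
  rcases h with ⟨c, rfl | hc, h⟩ | h
  · cases h
  · exact .inl ⟨c, hT hc, h⟩
  · exact absurd rfl (h.1 _ (.inl rfl))

/-- real step with two premises -/
lemma real1 (h : WF s.1 s.2) (hp : p ∈ s.1) (hq : q ∈ s.1) (a : Fm) :
    let m : Node := (a, insert s.1.length (p.2 ∪ q.2))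
    Ext s (m :: s.1, s.2) ∧ Ok (m :: s.1, s.2) (fm a, some m) ∧
      ∀ S, Gd s (insert (fm p.1, some p) (insert (fm q.1, some q) S)) →
        Gd (m :: s.1, s.2) (insert (fm a, some m) S) := by
  refine ⟨⟨h.one hp hq, fun r hr => .tail _ hr, fun W hW => hW.ext⟩,
    ⟨by simp, by rintro _ ⟨⟩; simp⟩, ?_⟩
  rintro S (⟨c, rfl | rfl | hc, e⟩ | ⟨h1, h2⟩)
  · cases e
  · cases e
  · exact .inl ⟨c, .inr hc, e⟩
  · refine .inr ⟨?_, ?_⟩
    · rintro c (rfl | hc)
      · simp
      · exact h1 c (.inr (.inr hc))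
    · rw [nd_insert, nd_insert] at h2
      rw [nd_insert]
      exact (Cl.one h hp hq fun r hr => h2.2.1 r (.inr (.inr hr))).2 h2

def K (s : St) (P : Set Cell → Set Cell) (y : V) : Prop :=
  ∀ s' o, Ext s s' → Ok s' (y, o) → (∀ S, Gd s (P S) → Gd s' (insert (y, o) S)) → Cs s'

lemma K.top {P} (h : WF s.1 s.2) (k : K s P top) : Cs s :=
  k s none (.refl h) ⟨by simp, by simp⟩ fun _ _ => .top

lemma N1 (h : WF s.1 s.2) (hc : Ok s c) (hy : Le c.1 y) (k : K s (insert c) y) : Cs s := by
  obtain ⟨x, o⟩ := c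
  cases y with
  | top => exact k.top h
  | bot => cases x <;> simp_all [Le, Ok]
  | fm b =>
    cases x with
    | top => exact hy.elim
    | bot => exact absurd rfl hc.1
    | fm a =>
      cases o with
      | none => exact k s none (.refl h) ⟨by simp, by simp⟩ fun S e => e.ghost (Set.subset_insert _ _)
      | some q =>
        obtain ⟨hq, e⟩ := hc.2 q rfl
        cases e
        have := real1 h hq hq b
        simp only [Finset.union_self, Set.insert_eq_of_mem (Set.mem_insert _ _)] at this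
        exact .recu trivial hq hy (k _ _ this.1 this.2.1 this.2.2)

lemma Gd.ghost2 {o o'} (h : Gd s (insert (fm a, o) (insert (fm b, o') S))) (e : o = none ∨ o' = none)
    {T : Set Cell} (hT : S ⊆ T) : Gd s T := by
  rcases h with ⟨c, rfl | rfl | hc, h⟩ | h
  · cases h
  · cases h
  · exact .inl ⟨c, hT hc, h⟩
  · rcases e with rfl | rfl
    · exact absurd rfl (h.1 _ (.inl rfl))
    · exact absurd rfl (h.1 _ (.inr (.inl rfl)))

lemma N2 {o o'} (h : WF s.1 s.2) (hc : Ok s (x, o)) (hd : Ok s (vimp x z, o'))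
    (k : K s (fun S => insert (x, o) (insert (vimp x z, o') S)) z) : Cs s := by
  cases z with
  | top => exact k.top h
  | bot => cases x <;> simp_all [vimp, Ok]
  | fm b =>
    cases x with
    | top => exact absurd rfl hd.1
    | bot => exact absurd rfl hc.1
    | fm a =>
      by_cases e : o = none ∨ o' = none
      · exact k s none (.refl h) ⟨by simp, by simp⟩ fun S g => g.ghost2 e (Set.subset_insert _ _)
      · push Not at e
        obtain ⟨p, rfl⟩ := Option.ne_none_iff_exists'.1 e.1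
        obtain ⟨⟨q, U⟩, rfl⟩ := Option.ne_none_iff_exists'.1 e.2
        obtain ⟨hp, e⟩ := hc.2 p rfl
        obtain ⟨hq, e'⟩ := hd.2 _ rfl
        cases e
        cases e'
        have := real1 h hp hq b
        exact .mp hp hq (k _ _ this.1 this.2.1 this.2.2)

lemma N3 {o} (h : WF s.1 s.2) (hc : Ok s (vor x y, o)) (k : K s (insert (vor x y, o)) x)
    (k' : K s (insert (vor x y, o)) y) : Cs s := by
  cases x with
  | top => exact k.top h
  | bot => exact N1 h hc (.refl _) k'
  | fm a =>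
    cases y with
    | top => exact k'.top h
    | bot => exact N1 h hc (.refl _) k
    | fm b =>
      cases o with
      | none => exact k s none (.refl h) ⟨by simp, by simp⟩ fun S e => e.ghost (Set.subset_insert _ _)
      | some q =>
        obtain ⟨q, U⟩ := q
        obtain ⟨hq, e⟩ := hc.2 _ rfl
        cases e
        have h1 := real1 h hq hq a
        have h2 := real1 h hq hq b
        simp only [Finset.union_self, Set.insert_eq_of_mem (Set.mem_insert _ _)] at h1 h2
        exact .disj hq (k _ _ h1.1 h1.2.1 h1.2.2) (k' _ _ h2.1 h2.2.1 h2.2.2)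

def K2 (s : St) (c : Cell) (x y : V) : Prop :=
  ∀ s' o o', Ext s s' → Ok s' (x, o) → Ok s' (y, o') →
    (∀ S, Gd s (insert c S) → Gd s' (insert (y, o') (insert (x, o) S))) → Cs s'

lemma N4 {o} (h : WF s.1 s.2) (hc : Ok s (vneg (vimp x z), o))
    (k : K2 s (vneg (vimp x z), o) x (vneg z)) : Cs s := by
  have hx : x ≠ bot := by rintro rfl; exact hc.1 rfl
  have hz : vneg z ≠ bot := by cases x <;> cases z <;> simp_all [vimp, vneg, Ok]
  have g (e : ∀ S, Gd s (insert (vneg (vimp x z), o) S) →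
      Gd s (insert (vneg z, none) (insert (x, none) S))) :=
    k s none none (.refl h) ⟨hx, by simp⟩ ⟨hz, by simp⟩ e
  cases x with
  | bot => exact absurd rfl hx
  | top => exact g fun S _ => .inl ⟨_, .inr (.inl rfl), rfl⟩
  | fm a =>
    cases z with
    | top => exact absurd rfl hz
    | bot => exact g fun S _ => .top
    | fm b =>
      cases o with
      | none => exact g fun S e => e.ghost ((Set.subset_insert _ _).trans (Set.subset_insert _ _))
      | some q =>
        obtain ⟨q, U⟩ := q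
        obtain ⟨hq, e⟩ := hc.2 _ rfl
        cases e
        refine .cc hq (k (_, _) (some (a, insert s.1.length U))
          (some (b.neg, insert (s.1.length + 1) U))
          ⟨h.two hq, fun r hr => .tail _ (.tail _ hr), fun W hW => hW.ext2 h⟩
          ⟨hx, by rintro _ ⟨⟩; simp⟩ ⟨hz, by rintro _ ⟨⟩; simp [vneg]⟩ ?_)
        rintro S (⟨c, rfl | hc, e⟩ | ⟨h1, h2⟩)
        · cases e
        · exact .inl ⟨c, .inr (.inr hc), e⟩
        · refine .inr ⟨?_, ?_⟩
          · rintro c (rfl | rfl | hc)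
            · simp
            · simp
            · exact h1 c (.inr hc)
          · rw [nd_insert] at h2
            rw [nd_insert, nd_insert]
            exact (Cl.two h hq fun r hr => h2.2.1 r (.inr hr)).2 h2

lemma N5 {o o'} (hc : Ok s (x, o)) (hd : Ok s (vneg x, o'))
    (g : Gd s (insert (x, o) (insert (vneg x, o') ∅))) : Cs s := by
  cases x with
  | top => exact absurd rfl hd.1
  | bot => exact absurd rfl hc.1
  | fm a =>
    by_cases e : o = none ∨ o' = none
    · have := g.ghost2 e le_rfl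
      simp [Gd, Cl, nd] at this
    · push Not at e
      obtain ⟨p, rfl⟩ := Option.ne_none_iff_exists'.1 e.1
      obtain ⟨⟨q, U⟩, rfl⟩ := Option.ne_none_iff_exists'.1 e.2
      obtain ⟨hp, e⟩ := hc.2 p rfl
      obtain ⟨hq, e'⟩ := hd.2 _ rfl
      cases e
      cases e'
      rcases g with ⟨c, rfl | rfl | hc, e⟩ | ⟨-, g⟩
      · cases e
      · cases e
      · cases hc
      · rw [nd_insert, nd_insert] at g
        exact .crash hp hq ((Cl.crash hp hq).2 (by simpa [nd] using g))

end Pool.Agent.H.MP_3f42a7_lc
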