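import Pool.Agent.H.MP_3f42a7_lc.B

namespace Pool.Agent.H.MP_3f42a7_lc

open Pool.Agent.H.MP_d84959_lc V

def cell (Q : Finset ℕ) (e : Node → Bool × Option Node) (p : Node) : Cell :=
  (t Q p.1 (e p).1, (e p).2)

def Sim (Q : Finset ℕ) (B : List Node) (C : Finset ℕ) (s : St) (e : Node → Bool × Option Node) :
    Prop :=
  WF B C ∧ WF s.1 s.2 ∧ (∀ p ∈ B, Ok s (cell Q e p)) ∧
    ∀ Z, Cl B C Z → Gd s (cell Q e '' Z) ∧ ∃ p ∈ Z, (e p).1 = true

variable {Q : Finset ℕ} {B : List Node} {C : Finset ℕ} {s s' : St}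
  {e : Node → Bool × Option Node} {p q : Node} {a b : Fm} {T : Finset ℕ}

open Classical in
lemma Sim.one (h : Sim Q B C s e) (hp : p ∈ B) (hq : q ∈ B) (hs : Ext s s') {i o}
    (ho : Ok s' (t Q a i, o))
    (hg : ∀ S, Gd s (insert (cell Q e p) (insert (cell Q e q) S)) → Gd s' (insert (t Q a i, o) S))
    (hi : (e p).1 = true ∨ (e q).1 = true → i = true) : ∃ e', (∀ r ∈ B, e' r = e r) ∧
      Sim Q ((a, insert B.length (p.2 ∪ q.2)) :: B) C s' e' := by
  let e' := Function.update e (a, insert B.length (p.2 ∪ q.2)) (i, o)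
  have hw : ∀ r ∈ B, e' r = e r :=
    fun r hr => Function.update_of_ne (fun k => h.1.notMem le_rfl (k ▸ hr)) _ _
  have h1 : e' (a, insert B.length (p.2 ∪ q.2)) = (i, o) := by simp [e']
  have hc : ∀ r ∈ B, cell Q e' r = cell Q e r := fun r hr => by simp [cell, hw r hr]
  refine ⟨e', hw, h.1.one hp hq, hs.1, ?_, fun Z hZ => ?_⟩
  · rintro r (_ | ⟨_, hr⟩)
    · simpa [cell, h1] using ho
    · rw [hc r hr]; exact (h.2.2.1 r hr).ext hs
  · rcases hZ.elim1 h.1 hp hq rfl with H | ⟨W, rfl, hW, H⟩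
    · obtain ⟨g, r, hr, k⟩ := h.2.2.2 Z H
      rw [Set.image_congr fun r hr => hc r (H.2.1 r hr)]
      exact ⟨g.ext hs, r, hr, by rwa [hw r (H.2.1 r hr)]⟩
    · obtain ⟨g, r, hr, k⟩ := h.2.2.2 _ H
      rw [Set.image_insert_eq, Set.image_insert_eq] at g
      rw [Set.image_insert_eq, Set.image_congr fun r hr => hc r (hW r hr)]
      refine ⟨by simpa [cell, h1] using hg _ g, ?_⟩
      rcases hr with rfl | rfl | hr
      · exact ⟨_, .inl rfl, by simp [h1, hi (.inl k)]⟩
      · exact ⟨_, .inl rfl, by simp [h1, hi (.inr k)]⟩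
      · exact ⟨r, .inr hr, by rwa [hw r (hW r hr)]⟩

lemma Sim.one' (h : Sim Q B C s e) (hp : (b, T) ∈ B) (hs : Ext s s') {o}
    (ho : Ok s' (t Q a (e (b, T)).1, o))
    (hg : ∀ S, Gd s (insert (cell Q e (b, T)) S) → Gd s' (insert (t Q a (e (b, T)).1, o) S)) :
    ∃ e', (∀ r ∈ B, e' r = e r) ∧ Sim Q ((a, insert B.length T) :: B) C s' e' := by
  simpa using h.one (a := a) hp hp hs ho (by simpa using hg) (by simp)

lemma Sim.step (h : Sim Q B C s e) (hp : (b, T) ∈ B)
    (hl : Le (t Q b (e (b, T)).1) (t Q a (e (b, T)).1))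
    (k : ∀ s' e', (∀ r ∈ B, e' r = e r) → Sim Q ((a, insert B.length T) :: B) C s' e' → Cs s') :
    Cs s :=
  N1 h.2.1 (h.2.2.1 _ hp) hl fun s' _ hs ho hg =>
    let ⟨e', h1, h2⟩ := h.one' hp hs ho hg
    k s' e' h1 h2

lemma Sim.fork {c : Fm} (h : Sim Q B C s e) (hp : (c, T) ∈ B)
    (hl : Le (t Q c (e (c, T)).1) (vor (t Q a (e (c, T)).1) (t Q b (e (c, T)).1)))
    (k : ∀ s' e', Sim Q ((a, insert B.length T) :: B) C s' e' → Cs s')
    (k' : ∀ s' e', Sim Q ((b, insert B.length T) :: B) C s' e' → Cs s') : Cs s :=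
  N1 h.2.1 (h.2.2.1 _ hp) hl fun _ _ hs ho hg => N3 hs.1 ho
    (fun s' _ hs' ho' hg' =>
      let ⟨e', _, h2⟩ := h.one' hp (hs.trans hs') ho' fun S g => hg' S (hg S g)
      k s' e' h2)
    (fun s' _ hs' ho' hg' =>
      let ⟨e', _, h2⟩ := h.one' hp (hs.trans hs') ho' fun S g => hg' S (hg S g)
      k' s' e' h2)

open Classical in
lemma Sim.two (h : Sim Q B C s e) (hp : p ∈ B) (hs : Ext s s') {i j o o'}
    (ho : Ok s' (t Q a i, o)) (ho' : Ok s' (t Q b j, o'))
    (hg : ∀ S, Gd s (insert (cell Q e p) S) →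
      Gd s' (insert (t Q b j, o') (insert (t Q a i, o) S)))
    (hi : (e p).1 = true → i = true ∨ j = true) : ∃ e',
      Sim Q ((b, insert (B.length + 1) p.2) :: (a, insert B.length p.2) :: B)
        (insert B.length C) s' e' := by
  let e' := Function.update (Function.update e (a, insert B.length p.2) (i, o))
    (b, insert (B.length + 1) p.2) (j, o')
  have hw : ∀ r ∈ B, e' r = e r := fun r hr =>
    (Function.update_of_ne (fun k => h.1.notMem (Nat.le_succ _) (k ▸ hr)) _ _).trans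
      (Function.update_of_ne (fun k => h.1.notMem le_rfl (k ▸ hr)) _ _)
  have h2 : e' (b, insert (B.length + 1) p.2) = (j, o') := by simp [e']
  have h1 : e' (a, insert B.length p.2) = (i, o) := by
    refine (Function.update_of_ne (fun k => ?_) _ _).trans (by simp)
    have : B.length + 1 ∈ insert B.length p.2 := by rw [(Prod.mk.inj k).2]; simp
    rw [Finset.mem_insert] at this
    exact absurd (h.1.1 p hp _ (this.resolve_left (by omega))) (by omega)
  have hc : ∀ r ∈ B, cell Q e' r = cell Q e r := fun r hr => by simp [cell, hw r hr]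
  refine ⟨e', h.1.two hp, hs.1, ?_, fun Z hZ => ?_⟩
  · rintro r (_ | ⟨_, _ | ⟨_, hr⟩⟩)
    · simpa [cell, h2] using ho'
    · simpa [cell, h1] using ho
    · rw [hc r hr]; exact (h.2.2.1 r hr).ext hs
  · rcases hZ.elim2 h.1 hp rfl rfl with H | ⟨W, rfl, hW, H⟩
    · obtain ⟨g, r, hr, k⟩ := h.2.2.2 Z H
      rw [Set.image_congr fun r hr => hc r (H.2.1 r hr)]
      exact ⟨g.ext hs, r, hr, by rwa [hw r (H.2.1 r hr)]⟩
    · obtain ⟨g, r, hr, k⟩ := h.2.2.2 _ H
      rw [Set.image_insert_eq] at g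
      rw [Set.image_insert_eq, Set.image_insert_eq, Set.image_congr fun r hr => hc r (hW r hr)]
      refine ⟨by simpa [cell, h1, h2] using hg _ g, ?_⟩
      rcases hr with rfl | hr
      · rcases hi k with k | k
        · exact ⟨_, .inr (.inl rfl), by simp [h1, k]⟩
        · exact ⟨_, .inl rfl, by simp [h2, k]⟩
      · exact ⟨r, .inr (.inr hr), by rwa [hw r (hW r hr)]⟩

lemma Sim.root (h : WF s.1 s.2) {o} (ho : Ok s (t Q a true, o))
    (hg : Gd s {(t Q a true, o)}) : Sim Q [(a, {0})] ∅ s fun _ => (true, o) := by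
  refine ⟨.root _, h, by simpa [cell] using ho, fun Z hZ => ⟨?_, hZ.1.imp fun _ hp => ⟨hp, rfl⟩⟩⟩
  have : Z = {(a, {0})} := hZ.1.subset_singleton_iff.1 fun r hr => by simpa using hZ.2.1 r hr
  simpa [this, cell] using hg

/-- consequence of the simulation property for a one-node branch -/
lemma root_le {x z : V} (H : ∀ s e, Sim Q [(a.neg, {0})] ∅ s e → Cs s)
    (hl : Le (t Q a false) (vimp x z)) (h : WF s.1 s.2) : Cs s ∨ Le x z := by
  have k (hb : vimp x z = bot) : Cs s := by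
    have : t Q a.neg true = top := by
      rw [hb] at hl
      rw [t, Bool.not_true]
      cases ht : t Q a false <;> simp_all [Le, vneg]
    exact H s _ (Sim.root (o := none) h ⟨by simp [this], by simp⟩ (.inl ⟨_, rfl, this⟩))
  cases x <;> cases z <;> try first | exact .inr trivial | exact .inl (k rfl)
  rename_i c d
  refine .inr (N1 (s := ([((c.imp d).neg, {0})], ∅)) 
    (c := (fm (c.imp d).neg, some ((c.imp d).neg, {0})))
    (WF.root _) ⟨by simp, by rintro _ ⟨⟩; simp⟩ (le_neg hl) fun s' o hs ho hg =>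
      H s' _ (Sim.root hs.1 ho ?_))
  have := hg ∅ (.inr ⟨by simp, by simp [nd, Cl]⟩)
  rw [LawfulSingleton.insert_empty_eq] at this
  exact this

theorem sim (H : Closes Par True B C) : ∀ s e, Sim Q B C s e → Cs s := by
  induction H with
  | @crash B C z T U hp hq hz =>
    intro s e h
    obtain ⟨g, hl⟩ := h.2.2.2 _ ((Cl.crash hp hq).1 hz)
    have : Le (t Q z (e (z, T)).1) (t Q z (!(e (z.neg, U)).1)) := by
      cases h1 : (e (z, T)).1 <;> cases h2 : (e (z.neg, U)).1
      · simp [h1, h2] at hl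
      · exact .refl _
      · exact .refl _
      · exact her _
    refine N1 h.2.1 (h.2.2.1 _ hp) this fun s' o hs ho hg =>
      N5 ho ((h.2.2.1 _ hq).ext hs) (hg _ ?_)
    rw [Set.image_pair] at g
    rw [LawfulSingleton.insert_empty_eq]
    exact g
  | conj hp _ ih =>
    exact fun s e h => h.step hp le_andl fun s' e' he h' =>
      h'.step (.tail _ hp) le_andr fun s'' e'' _ h'' => ih _ _ h''
  | nor hp _ ih =>
    exact fun s e h => h.step (a := .neg _) hp (le_neg le_orl) fun s' e' he h' =>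
      h'.step (a := .neg _) (.tail _ hp) (le_neg le_orr) fun s'' e'' _ h'' => ih _ _ h''
  | dn hp _ ih =>
    exact fun s e h => h.step hp (by simpa [t] using le_dn) fun s' e' _ h' => ih _ _ h'
  | nand hp _ _ i1 i2 => exact fun s e h => h.fork (a := .neg _) (b := .neg _) hp le_dm i1 i2
  | disj hp _ _ i1 i2 => exact fun s e h => h.fork hp (.refl _) i1 i2
  | @mp B C a b T U hp hq _ ih =>
    intro s e h
    have : Le (t Q (a.imp b) (e (a.imp b, U)).1)
        (vimp (t Q a (e (a, T)).1) (t Q b ((e (a, T)).1 || (e (a.imp b, U)).1))) := by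
      cases (e (a, T)).1
      · exact le_andl
      · exact le_andr
    refine N1 h.2.1 (h.2.2.1 _ hq) this fun s' o hs ho hg =>
      N2 hs.1 ((h.2.2.1 _ hp).ext hs) ho fun s'' o' hs' ho' hg' => ?_
    obtain ⟨e', -, h'⟩ := h.one hp hq (hs.trans hs') ho' (fun S g => hg' S (by
      rw [Set.insert_comm] at g
      have := hg _ g
      rw [Set.insert_comm] at this
      exact this)) (by simp)
    exact ih _ _ h'
  | @cc B C a b T hp _ ih =>
    intro s e h
    refine N1 h.2.1 (h.2.2.1 _ hp) le_dm fun s' o hs ho hg => N3 hs.1 ho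
      (fun s1 o1 hs1 ho1 hg1 => N4 hs1.1 ho1 fun s2 o2 o3 hs2 ho2 ho3 hg2 => ?_)
      (fun s1 o1 hs1 ho1 hg1 => N4 hs1.1 ho1 fun s2 o2 o3 hs2 ho2 ho3 hg2 => ?_)
    · obtain ⟨e', h'⟩ := h.two (b := b.neg) (j := (e (_, T)).1) hp ((hs.trans hs1).trans hs2) ho2 ho3
        (fun S g => hg2 S (hg1 S (hg S g))) .inr
      exact ih _ _ h'
    · obtain ⟨e', h'⟩ := h.two (b := b.neg) (j := false) hp ((hs.trans hs1).trans hs2) ho2 ho3
        (fun S g => hg2 S (hg1 S (hg S g))) fun _ => .inl rfl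
      exact ih _ _ h'
  | @recu B C a b T _ hp _ _ i1 i2 =>
    intro s e h
    refine (root_le (x := t Q a (e (a, T)).1) (z := t Q b (e (a, T)).1) i1 ?_ h.2.1).elim id
      fun hl => h.step hp hl fun s' e' _ h' => i2 _ _ h'
    cases (e (a, T)).1
    · exact le_andl
    · exact le_andr

theorem omissible {α β γ : Fm} (h1 : Disjoint (letters α) (letters β))
    (h2 : Disjoint (letters γ) (letters β))
    (H : Acc ((α.and β).imp γ) ∨ Acc (α.imp (β.or γ))) : Acc (α.imp γ) := by
  have m := mid β (Q := letters β) le_rfl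
  rcases H with H | H
  · refine (root_le (Q := letters β) (x := fm α) (z := fm γ) (s := (_, ∅)) (sim H)
      (le_andl.trans (le_imp ?_ (pure γ h2 _).1)) (WF.root _)).elim id id
    exact le_and (pure α h1 _).2 (m.1 ▸ trivial)
  · refine (root_le (Q := letters β) (x := fm α) (z := fm γ) (s := (_, ∅)) (sim H)
      (le_andr.trans (le_imp (pure α h1 _).2 ?_)) (WF.root _)).elim id id
    exact or_le (m.2 ▸ trivial) (pure γ h2 _).1

end Pool.Agent.H.MP_3f42a7_lc
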